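import Pool.Agent.E8helper80.AX.Defs

/-! AX, piece A2: the leading coefficients of a polynomial over the Laurent series which is divisible
by many linear factors with small roots. -/

set_option autoImplicit false

open Finset Pool.Agent.TH176.Nag Polynomial

namespace Pool.Agent.E8helper80.AX

namespace A2

/-- multiplication by `f` shifts the part of order `N` by `D` -/
def Good (N : ℤ) (D : ℕ) (f : Polynomial (LaurentSeries ℚ)) : Prop :=
  ∀ q : Polynomial (LaurentSeries ℚ), (∀ e, ∀ k < N, ((f * q).coeff e).coeff k = 0) →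
    (∀ e, ∀ k < N, (q.coeff e).coeff k = 0) ∧ (∀ e < D, ((f * q).coeff e).coeff N = 0) ∧
      ∀ e, ((f * q).coeff (e + D)).coeff N = (q.coeff e).coeff N

theorem mul_low {s w : LaurentSeries ℚ} {N : ℤ} (hs : ∀ k < (1 : ℤ), s.coeff k = 0)
    (hw : ∀ k < N, w.coeff k = 0) : ∀ k < N + 1, (s * w).coeff k = 0 := by
  intro k hk
  rw [HahnSeries.coeff_mul]
  apply Finset.sum_eq_zero
  intro ij hij
  rw [Finset.mem_antidiagonal] at hij
  obtain ⟨h1, h2, h3⟩ := hij
  exfalso
  have h4 : 1 ≤ ij.1 := by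
    by_contra h
    exact h1 (hs _ (by omega))
  have h5 : N ≤ ij.2 := by
    by_contra h
    exact h2 (hw _ (by omega))
  omega

theorem good_one (N : ℤ) : Good N 0 1 := by
  intro q hq
  rw [one_mul] at hq ⊢
  exact ⟨hq, fun e he => absurd he (Nat.not_lt_zero _), fun e => rfl⟩

theorem Good.mul {N : ℤ} {D D' : ℕ} {f g : Polynomial (LaurentSeries ℚ)} (hf : Good N D f)
    (hg : Good N D' g) : Good N (D + D') (f * g) := by
  intro q hq
  rw [mul_assoc] at hq ⊢
  obtain ⟨h1, h2, h3⟩ := hf _ hq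
  obtain ⟨h4, h5, h6⟩ := hg _ h1
  refine ⟨h4, fun e he => ?_, fun e => ?_⟩
  · by_cases h : e < D
    · exact h2 e h
    · have h7 := h3 (e - D)
      rw [Nat.sub_add_cancel (not_lt.mp h)] at h7
      rw [h7]
      exact h5 _ (by omega)
  · have h7 := h3 (e + D')
    rw [add_assoc, add_comm D' D] at h7
    rw [h7, h6]

theorem Good.pow {N : ℤ} {D : ℕ} {f : Polynomial (LaurentSeries ℚ)} (hf : Good N D f) (r : ℕ) :
    Good N (r * D) (f ^ r) := by
  induction r with
  | zero => rw [zero_mul, pow_zero]; exact good_one N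
  | succ r ih =>
    rw [pow_succ, Nat.succ_mul]
    exact ih.mul hf

theorem good_prod {N : ℤ} {ι : Type} (S : Finset ι) (d : ι → ℕ)
    (f : ι → Polynomial (LaurentSeries ℚ)) (h : ∀ l ∈ S, Good N (d l) (f l)) :
    Good N (∑ l ∈ S, d l) (∏ l ∈ S, f l) := by
  classical
  induction S using Finset.induction_on with
  | empty => rw [Finset.sum_empty, Finset.prod_empty]; exact good_one N
  | insert a S ha ih =>
    rw [Finset.sum_insert ha, Finset.prod_insert ha]
    exact (h a (Finset.mem_insert_self _ _)).mul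
      (ih fun l hl => h l (Finset.mem_insert_of_mem hl))

theorem coeff_lin (s : LaurentSeries ℚ) (q : Polynomial (LaurentSeries ℚ)) (e : ℕ) :
    ((X - C s) * q).coeff (e + 1) = q.coeff e - s * q.coeff (e + 1) := by
  rw [sub_mul, coeff_sub, coeff_X_mul, coeff_C_mul]

theorem good_lin {N : ℤ} (s : LaurentSeries ℚ) (hs : ∀ k < (1 : ℤ), s.coeff k = 0) :
    Good N 1 (X - C s) := by
  intro q hq
  have hlow : ∀ d e : ℕ, q.natDegree < e + d → ∀ k < N, (q.coeff e).coeff k = 0 := by
    intro d
    induction d with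
    | zero =>
      intro e he k _
      rw [coeff_eq_zero_of_natDegree_lt (by omega), HahnSeries.coeff_zero]
    | succ d ih =>
      intro e he k hk
      have h1 := hq (e + 1) k hk
      rw [coeff_lin, HahnSeries.coeff_sub, mul_low hs (ih (e + 1) (by omega)) k (by omega),
        sub_zero] at h1
      exact h1
  have hl : ∀ e, ∀ k < N, (q.coeff e).coeff k = 0 := fun e =>
    hlow (q.natDegree + 1) e (by omega)
  refine ⟨hl, fun e he => ?_, fun e => ?_⟩
  · obtain rfl : e = 0 := by omega
    rw [sub_mul, coeff_sub, coeff_C_mul, mul_coeff_zero, coeff_X_zero, zero_mul, zero_sub,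
      HahnSeries.coeff_neg, mul_low hs (hl 0) N (by omega), neg_zero]
  · rw [coeff_lin, HahnSeries.coeff_sub, mul_low hs (hl (e + 1)) N (by omega), sub_zero]

end A2

open A2 in
theorem lead_dvd {n r u : ℕ} (a : Fin n → ℚ) (ha : Function.Injective a) (ha0 : ∀ l, a l ≠ 0)
    {p : Polynomial (LaurentSeries ℚ)} {N : ℤ} (hN : ∀ e, ∀ k < N, (p.coeff e).coeff k = 0)
    (hu : X ^ u ∣ p) (hd : ∀ l, (X - C (tv ℚ * cst (a l))) ^ r ∣ p) {e : ℕ} (he : e < u + n * r) :
    (p.coeff e).coeff N = 0 := by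
  classical
  have htv : (tv ℚ) ≠ 0 := by simp [tv]
  have hX : (X : Polynomial (LaurentSeries ℚ)) = X - C 0 := by rw [C_0, sub_zero]
  have hcop : ∀ s t : LaurentSeries ℚ, s ≠ t → IsCoprime (X - C s) (X - C t) := fun s t h =>
    isCoprime_X_sub_C_of_isUnit_sub (isUnit_iff_ne_zero.mpr (sub_ne_zero.mpr h))
  have hX' : ∀ s : LaurentSeries ℚ, s ≠ 0 →
      IsCoprime (X : Polynomial (LaurentSeries ℚ)) (X - C s) := by
    intro s hs
    have h := hcop 0 s hs.symm
    rwa [C_0, sub_zero] at h
  have hs0 : ∀ l, tv ℚ * cst (a l) ≠ 0 := fun l =>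
    mul_ne_zero htv (by simpa [cst] using ha0 l)
  have hprod : ∏ l, (X - C (tv ℚ * cst (a l))) ^ r ∣ p := by
    apply Finset.prod_dvd_of_coprime
    · intro l _ m _ hlm
      apply IsCoprime.pow
      apply hcop
      intro h
      apply hlm
      apply ha
      have := mul_left_cancel₀ htv h
      exact HahnSeries.C_injective this
    · intro l _
      exact hd l
  have hcop2 : IsCoprime ((X : Polynomial (LaurentSeries ℚ)) ^ u)
      (∏ l, (X - C (tv ℚ * cst (a l))) ^ r) := by
    apply IsCoprime.prod_right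
    intro l _
    apply IsCoprime.pow
    exact hX' _ (hs0 l)
  obtain ⟨q, hq⟩ := hcop2.mul_dvd hu hprod
  have hg0 : Good N 1 (X : Polynomial (LaurentSeries ℚ)) := by
    rw [hX]
    exact good_lin 0 (fun k _ => HahnSeries.coeff_zero)
  have hgl : ∀ l ∈ (Finset.univ : Finset (Fin n)), Good N (r * 1)
      ((X - C (tv ℚ * cst (a l))) ^ r) := by
    intro l _
    apply Good.pow
    apply good_lin
    intro k hk
    rw [← pow_one (tv ℚ), coeff_tv_pow_mul]
    simp only [cst, HahnSeries.C_apply]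
    rw [HahnSeries.coeff_single_of_ne]
    push_cast
    omega
  have hG := (hg0.pow u).mul (good_prod Finset.univ (fun _ => r * 1) _ hgl)
  rw [hq] at hN ⊢
  refine (hG q hN).2.1 e ?_
  simp only [mul_one, Finset.sum_const, Finset.card_univ, Fintype.card_fin, smul_eq_mul]
  exact he

end Pool.Agent.E8helper80.AX
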